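import Pool.Agent.Helper16.KUnb.Main

set_option autoImplicit false

namespace Pool.Agent.Results.MP_79b4ff_gt.UnbalancedStates

open Pool.Agent.Helper16.Knotoid Pool.Agent.Helper16.Knotoid.GaussDiagram

/-- Unbalanced Kauffman states of knotoid diagrams: the normalized bracket detects the trivial
knotoid on the diagrams whose Seifert state is unbalanced, or which have a strictly unbalanced
state. -/
theorem result {n : ℕ} (D : GaussDiagram n) (hf : D.normalizedBracket = 1)
    (h : D.Unbalanced D.sign ∨ ∃ s : Fin n → Bool, D.StrictlyUnbalanced s) :
    R1Trivial D.word := by
  rcases h with h | ⟨s, hs⟩
  · exact unb_seifert hf h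
  · exact unb_strict hf hs

end Pool.Agent.Results.MP_79b4ff_gt.UnbalancedStates

/-
Shelved hand-in (replaced by ArborescentKnotoids), its claim file was:
Proves: Let D be a knotoid diagram of any height (S^2 is not needed), s a Kauffman state. For a set Z of crossings, A(Z), B(Z) are its numbers of A-, B-smoothings in s and e(Z)=|Z|+|s_Z|-|s|, s_Z being s changed on Z. s is unbalanced if 2|A(Z)-B(Z)|>e(Z), strictly if 2|A(Z)-B(Z)|>e(Z)+2, for all nonempty unions Z of cycles of the state graph (components, crossings). If f_D=1 and the Seifert state of D is unbalanced or some state is strictly unbalanced, then D reduces to the crossingless diagram by Reidemeister I moves.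
Definitions: GaussDiagram n: bijection (crossing, over/under) -> passages 0..2n-1, and signs. Join s: edges joined by s; comps s=|s|; sign as a state: Seifert state. f=(-A^3)^(-w) sum_s A^(#A-#B) (-A^2-A^-2)^(|s|-1). end1, end2: components at a crossing; IsEven: even subgraph; IsCycleUnion: nonempty union of cycles; excess: e; num: A(Z), B(Z). R1Trivial: word built by inserting pairs aa.
Relation: Partial answer to Q1: f detects the trivial knotoid on these diagrams (for instance, not part of this theorem, if the twist numbers have no small signed sums). For proper knotoids I know no such result.
-/
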